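import Pool.Agent.MP_03d3f2_lc.Main

open Pool.Agent.MP_03d3f2_lc

/-- Every free continuous action of `ℤ^d` on a zero-dimensional Polish space has, for every `q`,
a `q`-toast with closed layers. -/
theorem Pool.Agent.Results.MP_03d3f2_lc.ClosedToast.result :
    ∀ (d : ℕ), 1 ≤ d → ∀ (X : Type) [TopologicalSpace X] [PolishSpace X],
      TopologicalSpace.IsTopologicalBasis {U : Set X | IsClopen U} →
      ∀ [AddAction (Fin d → ℤ) X] [ContinuousVAdd (Fin d → ℤ) X],
      (∀ (γ : Fin d → ℤ) (x : X), γ +ᵥ x = x → γ = 0) →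
      ∀ q : ℕ, ∃ T : ℕ → Set X, IsToast (schreier d X) q T ∧ ∀ n, IsClosed (T n) :=
  fun _ _ _ _ _ hzero _ _ hfree q => exists_closed_toast hzero hfree q
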